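import Pool.Agent.N754.GF.Stm
import Pool.Agent.N754.LT.Low

/-!
Polynomials in units are as large as their monomials.
-/

set_option autoImplicit false
set_option linter.unusedSectionVars false

open Finset Filter Module MvPolynomial

namespace Pool.Agent.N499.GF

open Pool.Agent.N754.LT (mon mon_fs mon_li)
open Pool.Agent.N754.MT (Dm)

theorem smax : Pool.Agent.N754.GF.S_MAX := by
  intro k R _ _ _ _ D r w hw q hq s hs
  classical
  set φ : MvPolynomial (Fin r) k →ₐ[k] R := aeval (fun i => (w i : R)) with hφ
  have hinj : Function.Injective φ := hw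
  set T : Finset (Fin r →₀ ℕ) := q.support with hT
  have hq0 : φ q ≠ 0 := fun h => hq (hinj (by rw [h, map_zero]))
  let m : T → Rˣ := fun a => mon w (fun i => a.1 i)
  have hφq : φ q = ∑ a : T, algebraMap k R (coeff a.1 q) * (m a : R) := by
    conv_lhs => rw [q.as_sum]
    rw [map_sum, ← Finset.sum_coe_sort]
    exact Finset.sum_congr rfl fun a _ => mon_fs w a.1 _
  have hcoef : ∀ a : T, coeff a.1 q ≠ 0 := fun a => mem_support_iff.1 a.2
  let e : Fin (Fintype.card T) ≃ T := (Fintype.equivFin T).symm
  let B : T → Fin (Fintype.card T) → R := fun c i => if e i = c then φ q else (m (e i) : R)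
  -- independence
  have hBli : ∀ c, LinearIndependent k (B c) := by
    intro c
    rw [Fintype.linearIndependent_iff]
    intro g hg
    have h1 : ∑ a : T, g (e.symm a) • (if a = c then φ q else (m a : R)) = 0 := by
      rw [← hg]
      exact Fintype.sum_equiv e.symm _ _ fun a => by simp [B]
    have h2 : ∑ a : T, algebraMap k R ((if a = c then 0 else g (e.symm a)) +
        g (e.symm c) * coeff a.1 q) * (m a : R) = 0 := by
      rw [← h1]
      have h3 : ∑ a : T, g (e.symm a) • (if a = c then φ q else (m a : R)) =
          g (e.symm c) • φ q + ∑ a : T, (if a = c then 0 else g (e.symm a)) • (m a : R) := by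
        rw [← Finset.add_sum_erase _ _ (Finset.mem_univ c), if_pos rfl]
        congr 1
        rw [← Finset.add_sum_erase (Finset.univ : Finset T) (fun a => (if a = c then 0 else
          g (e.symm a)) • (m a : R)) (Finset.mem_univ c), if_pos rfl, zero_smul, zero_add]
        refine Finset.sum_congr rfl fun a ha => ?_
        rw [if_neg (Finset.ne_of_mem_erase ha), if_neg (Finset.ne_of_mem_erase ha)]
      rw [h3, hφq, Finset.smul_sum, ← Finset.sum_add_distrib]
      refine Finset.sum_congr rfl fun a _ => ?_
      rw [map_add, map_mul, Algebra.smul_def, Algebra.smul_def]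
      ring
    have h3 := mon_li w hw T _ h2
    have h4 : g (e.symm c) = 0 := by
      have h5 := congrFun h3 c
      simp only [if_true, zero_add, Pi.zero_apply] at h5
      exact (mul_eq_zero.1 h5).resolve_right (hcoef c)
    intro i
    by_cases hi : e i = c
    · rw [← hi, Equiv.symm_apply_apply] at h4
      exact h4
    · have h5 := congrFun h3 (e i)
      simp only [if_neg hi, Equiv.symm_apply_apply, h4, zero_mul, add_zero, Pi.zero_apply] at h5
      exact h5
  -- spans
  have hspan : ∀ c, Submodule.span k (Set.range (B c)) =
      Submodule.span k (Set.range fun a : T => (m a : R)) := by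
    intro c
    have hmem : φ q ∈ Submodule.span k (Set.range fun a : T => (m a : R)) := by
      rw [hφq]
      refine Submodule.sum_mem _ fun a _ => ?_
      rw [← Algebra.smul_def]
      exact Submodule.smul_mem _ _ (Submodule.subset_span ⟨a, rfl⟩)
    apply le_antisymm
    · rw [Submodule.span_le]
      rintro _ ⟨i, rfl⟩
      by_cases hi : e i = c
      · simp only [B, if_pos hi]
        exact hmem
      · simp only [B, if_neg hi]
        exact Submodule.subset_span ⟨e i, rfl⟩
    · rw [Submodule.span_le]
      have hne : ∀ a, a ≠ c → (m a : R) ∈ Submodule.span k (Set.range (B c)) := by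
        intro a ha
        refine Submodule.subset_span ⟨e.symm a, ?_⟩
        simp only [B, Equiv.apply_symm_apply, if_neg ha]
      have hqm : φ q ∈ Submodule.span k (Set.range (B c)) := by
        refine Submodule.subset_span ⟨e.symm c, ?_⟩
        simp only [B, Equiv.apply_symm_apply, if_true]
      rintro _ ⟨a, rfl⟩
      by_cases ha : a = c
      · subst ha
        have h1 : (m a : R) = (coeff a.1 q)⁻¹ • (φ q -
            ∑ a' ∈ Finset.univ.erase a, coeff a'.1 q • (m a' : R)) := by
          have h2 : φ q = coeff a.1 q • (m a : R) +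
              ∑ a' ∈ Finset.univ.erase a, coeff a'.1 q • (m a' : R) := by
            rw [Finset.add_sum_erase _ (fun a' : T => coeff a'.1 q • (m a' : R))
              (Finset.mem_univ a), hφq]
            simp only [Algebra.smul_def]
          rw [h2, add_sub_cancel_right, smul_smul, inv_mul_cancel₀ (hcoef a), one_smul]
        show (m a : R) ∈ _
        rw [h1]
        refine Submodule.smul_mem _ _ (Submodule.sub_mem _ hqm (Submodule.sum_mem _ fun a' ha' => ?_))
        exact Submodule.smul_mem _ _ (hne a' (Finset.ne_of_mem_erase ha'))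
      · exact hne a ha
  let s' : D.Ω → T := fun ω => ⟨s ω, hs ω⟩
  have hsmt := D.smt _ T B hBli (fun c c' => (hspan c).trans (hspan c').symm) s'
  have h1 := D.neg_add _ _ hsmt
      (D.neg_sum (Finset.univ : Finset T) _ fun a _ => D.unit_neg' (m a))
  refine D.neg_mono _ _ (Filter.Eventually.of_forall fun ω => ?_) h1
  have h2 : ∑ i, Real.log (D.A (B (s' ω) i) ω) =
      D.lg (φ q) ω + (∑ a : T, D.lg (m a : R) ω - D.lg (m (s' ω) : R) ω) := by
    have h3 : ∑ i, Real.log (D.A (B (s' ω) i) ω) =
        ∑ a : T, D.lg (if a = s' ω then φ q else (m a : R)) ω :=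
      Fintype.sum_equiv e _ _ fun i => rfl
    rw [h3, ← Finset.add_sum_erase _ _ (Finset.mem_univ (s' ω)), if_pos rfl,
      ← Finset.add_sum_erase (Finset.univ : Finset T) (fun a => D.lg (m a : R) ω)
        (Finset.mem_univ (s' ω)), add_sub_cancel_left]
    congr 1
    refine Finset.sum_congr rfl fun a ha => ?_
    rw [if_neg (Finset.ne_of_mem_erase ha)]
  rw [h2]
  show D.lg (m (s' ω) : R) ω - D.lg (φ q) ω ≤ _
  linarith

end Pool.Agent.N499.GF
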